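import Mathlib
import Pool.Agent.Helper6.HeisNil

/-!
# Linear growth of a 1-form along light-like geodesics (MP_64c48d_gt, Q1)

There is a closed (compact, boundaryless) Lorentz 3-manifold, geodesically complete, with a smooth
1-form whose value on the velocity of every light-like geodesic is an affine function of the affine
parameter, with a non-zero slope for at least one light-like geodesic.
The manifold is the quotient of the Heisenberg group by its integer lattice, the metric is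
`2 dx (dz - x dy) + dy ^ 2` and the form is `dy`.
-/

open scoped Manifold ContDiff Bundle Topology
open Bundle Set

namespace Pool.Agent.Results.MP_64c48d_gt.LinearGrowth

/-! ### Definitions

Throughout, `M` is a smooth manifold without boundary modelled on the real normed space `E`
(in the theorem, `E = ℝ³`). -/

variable (E : Type) [NormedAddCommGroup E] [NormedSpace ℝ E]
  (M : Type) [TopologicalSpace M] [ChartedSpace E M] [IsManifold 𝓘(ℝ, E) ∞ M]

/-- A smooth semi-Riemannian metric on the smooth manifold `M` modelled on `E`: a smooth family of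
symmetric nondegenerate bilinear forms on the tangent spaces (a smooth section of the bundle of
bilinear forms on the tangent bundle). -/
structure SemiRiemannianMetric where
  /-- the bilinear form on the tangent space at `p` -/
  val : ∀ p : M, TangentSpace 𝓘(ℝ, E) p →L[ℝ] TangentSpace 𝓘(ℝ, E) p →L[ℝ] ℝ
  symmetric : ∀ (p : M) (v w : TangentSpace 𝓘(ℝ, E) p), val p v w = val p w v
  nondegenerate : ∀ (p : M) (v : TangentSpace 𝓘(ℝ, E) p), (∀ w, val p v w = 0) → v = 0
  smooth : ContMDiff 𝓘(ℝ, E) (𝓘(ℝ, E).prod 𝓘(ℝ, E →L[ℝ] E →L[ℝ] ℝ)) ∞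
    (fun p : M ↦ TotalSpace.mk' (E →L[ℝ] E →L[ℝ] ℝ)
      (E := fun p : M ↦ TangentSpace 𝓘(ℝ, E) p →L[ℝ] TangentSpace 𝓘(ℝ, E) p →L[ℝ] ℝ) p (val p))

/-- A smooth 1-form on the smooth manifold `M` (a smooth section of the cotangent bundle). -/
structure OneForm where
  /-- the linear form on the tangent space at `p` -/
  val : ∀ p : M, TangentSpace 𝓘(ℝ, E) p →L[ℝ] ℝ
  smooth : ContMDiff 𝓘(ℝ, E) (𝓘(ℝ, E).prod 𝓘(ℝ, E →L[ℝ] ℝ)) ∞
    (fun p : M ↦ TotalSpace.mk' (E →L[ℝ] ℝ)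
      (E := fun p : M ↦ TangentSpace 𝓘(ℝ, E) p →L[ℝ] Bundle.Trivial M ℝ p) p (val p))

variable {E M}

omit [IsManifold 𝓘(ℝ, E) ∞ M] in
variable (E) in
/-- The velocity vector at time `t` of a curve `γ : ℝ → M`. -/
noncomputable def velocity (γ : ℝ → M) (t : ℝ) : TangentSpace 𝓘(ℝ, E) (γ t) :=
  mfderiv 𝓘(ℝ, ℝ) 𝓘(ℝ, E) γ t (1 : ℝ)

namespace SemiRiemannianMetric

variable (g : SemiRiemannianMetric E M)

/-- The metric is indefinite: at every point it takes positive and negative values. -/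
def IsIndefinite : Prop :=
  ∀ p : M, (∃ v : TangentSpace 𝓘(ℝ, E) p, 0 < g.val p v v) ∧
    ∃ v : TangentSpace 𝓘(ℝ, E) p, g.val p v v < 0

/-- The coordinate expression of the metric in the chart `e`, at the point `x` of the model space:
`G_x(v, w) = g(D(e⁻¹)_x v, D(e⁻¹)_x w)`; for basis vectors `v, w` these are the coefficients
`g_{ij}(x)`. -/
noncomputable def inChart (e : OpenPartialHomeomorph M E) (x v w : E) : ℝ :=
  g.val (e.symm x) (mfderiv 𝓘(ℝ, E) 𝓘(ℝ, E) e.symm x v) (mfderiv 𝓘(ℝ, E) 𝓘(ℝ, E) e.symm x w)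

/-- `γ` is a geodesic on the open set `J ⊆ ℝ`: it is smooth on `J` and in every chart `e` of `M`
its coordinate expression `c = e ∘ γ` satisfies the geodesic equation `∇_{c'} c' = 0` of the
Levi-Civita connection, with the free index lowered and contracted with an arbitrary vector `w`:
`g_{kj} c''^k w^j + ∂_i g_{kj} c'^i c'^k w^j - (1/2) ∂_j g_{ik} c'^i c'^k w^j = 0`. -/
def IsGeodesicOn (γ : ℝ → M) (J : Set ℝ) : Prop :=
  ContMDiffOn 𝓘(ℝ, ℝ) 𝓘(ℝ, E) ∞ γ J ∧
  ∀ e ∈ atlas E M, ∀ t ∈ J, γ t ∈ e.source → ∀ w : E,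
      g.inChart e (e (γ t)) (deriv (deriv (fun s ↦ e (γ s))) t) w
        + fderiv ℝ (fun x ↦ g.inChart e x (deriv (fun s ↦ e (γ s)) t) w) (e (γ t))
            (deriv (fun s ↦ e (γ s)) t)
        - (1 / 2) * fderiv ℝ (fun x ↦ g.inChart e x (deriv (fun s ↦ e (γ s)) t)
            (deriv (fun s ↦ e (γ s)) t)) (e (γ t)) w = 0

/-- Geodesic completeness: every geodesic defined on an open interval `J` (bounded or not) extends
to a geodesic defined on all of `ℝ`. -/
def IsComplete : Prop :=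
  ∀ (γ : ℝ → M) (J : Set ℝ), IsOpen J → J.OrdConnected → g.IsGeodesicOn γ J →
    ∃ Γ : ℝ → M, g.IsGeodesicOn Γ Set.univ ∧ Set.EqOn Γ γ J

/-- `γ : ℝ → M` is a light-like geodesic: a non-constant geodesic defined on all of `ℝ` with
`g(γ', γ') = 0`. -/
def IsLightlikeGeodesic (γ : ℝ → M) : Prop :=
  g.IsGeodesicOn γ Set.univ ∧ (∃ s t : ℝ, γ s ≠ γ t) ∧
    ∀ t : ℝ, g.val (γ t) (velocity E γ t) (velocity E γ t) = 0

end SemiRiemannianMetric

/-- The positive answer to Q1 with a closed manifold modelled on `E`: there are a closed (compact,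
Hausdorff, second countable, boundaryless), here also connected, smooth manifold `M` modelled on
`E`, a geodesically complete smooth semi-Riemannian metric `g` of indefinite signature on `M` and a
smooth 1-form `η` on `M`, not identically zero, such that along every light-like geodesic
`γ : ℝ → M` the function `t ↦ η(γ'(t))` is of the form `C₁ t + C₂`, and `C₁ ≠ 0` for at least one
light-like geodesic. -/
def HasLinearGrowthExample (E : Type) [NormedAddCommGroup E] [NormedSpace ℝ E] : Prop :=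
    ∃ (M : Type) (_ : TopologicalSpace M) (_ : ChartedSpace E M)
      (_ : IsManifold 𝓘(ℝ, E) ∞ M) (g : SemiRiemannianMetric E M) (η : OneForm E M),
      CompactSpace M ∧ T2Space M ∧ SecondCountableTopology M ∧ ConnectedSpace M ∧
      g.IsIndefinite ∧ g.IsComplete ∧ (∃ p : M, η.val p ≠ 0) ∧
      (∀ γ : ℝ → M, g.IsLightlikeGeodesic γ →
        ∃ C₁ C₂ : ℝ, ∀ t : ℝ, η.val (γ t) (velocity E γ t) = C₁ * t + C₂) ∧
      (∃ γ : ℝ → M, g.IsLightlikeGeodesic γ ∧
        ∃ C₁ C₂ : ℝ, C₁ ≠ 0 ∧ ∀ t : ℝ, η.val (γ t) (velocity E γ t) = C₁ * t + C₂)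

open Pool.Agent.Helper6.Heis

/-! ### Proof -/

lemma P_inv1 (g : HZ) (v : E3) : P 1 (L g v) = P 1 v := by simp
lemma P_inv0 (g : HZ) (v : E3) : P 0 (L g v) = P 0 v := by simp

lemma Gm_nondeg (q v : E3) (h : ∀ w : E3, Gm q v w = 0) : v = 0 := by
  have h2 := h (EuclideanSpace.single 2 1)
  have h1 := h (EuclideanSpace.single 1 1)
  have h0 := h (EuclideanSpace.single 0 1)
  rw [Gm_apply] at h0 h1 h2
  simp at h0 h1 h2
  have e1 : v 1 = 0 := by rw [h2] at h1; simpa using h1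
  have e2 : v 2 = 0 := by rw [e1] at h0; simpa using h0
  exact E3.ext' h2 e1 e2

/-- The Lorentz metric. -/
noncomputable def gN : SemiRiemannianMetric E3 NilM where
  val p := Gm (lift p)
  symmetric p v w := by
    show Gm (lift p) v w = Gm (lift p) w v
    rw [Gm_apply, Gm_apply]; ring
  nondegenerate p v h := Gm_nondeg (lift p) v h
  smooth := contMDiff_bilin Gm Gm_contDiff Gm_inv

/-- The 1-form `dy`. -/
noncomputable def etaN : OneForm E3 NilM where
  val _ := P 1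
  smooth := contMDiff_lin (fun _ => P 1) contDiff_const (fun g _ v => P_inv1 g v)

lemma bilin_mfderiv (x v w : E3) :
    Gm (lift (pr x)) (mfderiv (𝓡 3) (𝓡 3) pr x v) (mfderiv (𝓡 3) (𝓡 3) pr x w) = Gm x v w := by
  obtain ⟨g, hg1, -, hg3⟩ := exists_mfderiv_pr x
  rw [hg3.mfderiv, ← hg1]
  exact Gm_inv g x v w

lemma P1_mfderiv (x v : E3) : P 1 (mfderiv (𝓡 3) (𝓡 3) pr x v) = v 1 := by
  obtain ⟨g, hg1, -, hg3⟩ := exists_mfderiv_pr x
  rw [hg3.mfderiv]
  exact P_inv1 g v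

lemma P0_mfderiv (x v : E3) : P 0 (mfderiv (𝓡 3) (𝓡 3) pr x v) = v 0 := by
  obtain ⟨g, hg1, -, hg3⟩ := exists_mfderiv_pr x
  rw [hg3.mfderiv]
  exact P_inv0 g v

lemma inChart_eq {e : OpenPartialHomeomorph NilM E3} (he : e ∈ atlas E3 NilM) (x v w : E3) :
    gN.inChart e x v w = Gm x v w := by
  have key : ∀ f : E3 → NilM, f = pr →
      gN.val (f x) (mfderiv (𝓡 3) (𝓡 3) f x v) (mfderiv (𝓡 3) (𝓡 3) f x w) = Gm x v w := by
    rintro f rfl
    exact bilin_mfderiv x v w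
  exact key _ (atlas_symm he)

lemma fderiv_Gm (x v w u : E3) :
    fderiv ℝ (fun y => Gm y v w) x u = - (u 0 * (v 0 * w 1 + w 0 * v 1)) := by
  have h : (fun y : E3 => Gm y v w) =
      fun y => (v 0 * w 2 + w 0 * v 2 + v 1 * w 1) - (v 0 * w 1 + w 0 * v 1) * P 0 y := by
    funext y
    rw [Gm_apply]
    simp
    ring
  rw [h]
  have h2 : HasFDerivAt (fun y : E3 =>
      (v 0 * w 2 + w 0 * v 2 + v 1 * w 1) - (v 0 * w 1 + w 0 * v 1) * P 0 y)
      (0 - (v 0 * w 1 + w 0 * v 1) • P 0) x :=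
    (hasFDerivAt_const _ _).sub ((P 0).hasFDerivAt.const_mul _)
  rw [h2.fderiv]
  simp
  ring

/-- the geodesic equation in the coordinates -/
lemma ode_iff (q v a : E3) :
    (∀ w : E3, Gm q a w + (-(v 0 * (v 0 * w 1 + w 0 * v 1)))
      - (1 / 2) * (-(w 0 * (v 0 * v 1 + v 0 * v 1))) = 0) ↔
    (a 0 = 0 ∧ a 1 = v 0 ^ 2 ∧ a 2 = q 0 * v 0 ^ 2) := by
  constructor
  · intro h
    have h2 := h (EuclideanSpace.single 2 1)
    have h1 := h (EuclideanSpace.single 1 1)
    have h0 := h (EuclideanSpace.single 0 1)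
    rw [Gm_apply] at h0 h1 h2
    simp at h0 h1 h2
    rw [h2] at h1
    have e1 : a 1 = v 0 ^ 2 := by linarith
    refine ⟨h2, e1, ?_⟩
    rw [e1] at h0
    linarith
  · rintro ⟨h0, h1, h2⟩ w
    rw [Gm_apply, h0, h1, h2]
    ring

lemma chart_eq_iff {e : OpenPartialHomeomorph NilM E3} (he : e ∈ atlas E3 NilM) (q v a : E3) :
    (∀ w : E3, gN.inChart e q a w + fderiv ℝ (fun x ↦ gN.inChart e x v w) q v
      - (1 / 2) * fderiv ℝ (fun x ↦ gN.inChart e x v v) q w = 0) ↔
    (a 0 = 0 ∧ a 1 = v 0 ^ 2 ∧ a 2 = q 0 * v 0 ^ 2) := by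
  rw [← ode_iff]
  simp only [inChart_eq he, fderiv_Gm]

/-- The coordinate form of the geodesic equation -/
def SolODE (c : ℝ → E3) (t : ℝ) : Prop :=
  deriv (deriv c) t 0 = 0 ∧ deriv (deriv c) t 1 = (deriv c t 0) ^ 2 ∧
    deriv (deriv c) t 2 = c t 0 * (deriv c t 0) ^ 2

lemma isGeodesicOn_iff (γ : ℝ → NilM) (J : Set ℝ) :
    gN.IsGeodesicOn γ J ↔ ContMDiffOn 𝓘(ℝ, ℝ) (𝓡 3) ∞ γ J ∧
      ∀ e ∈ atlas E3 NilM, ∀ t ∈ J, γ t ∈ e.source → SolODE (fun s => e (γ s)) t := by
  unfold SemiRiemannianMetric.IsGeodesicOn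
  refine and_congr_right fun _ => ?_
  refine forall_congr' fun e => forall_congr' fun he => forall_congr' fun t =>
    forall_congr' fun _ => forall_congr' fun _ => ?_
  exact chart_eq_iff he _ _ _

lemma pr_contMDiff : ContMDiff (𝓡 3) (𝓡 3) ∞ pr := by
  intro x
  obtain ⟨g, hg1, -, -⟩ := exists_mfderiv_pr x
  set e := chartAt E3 (pr x) with he
  have h1 : g • x ∈ e.target := by
    rw [hg1, ← chartAt_self]
    exact mem_chart_target E3 (pr x)
  have h2 : ContMDiffAt (𝓡 3) (𝓡 3) ∞ e.symm (g • x) :=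
    (contMDiffOn_symm_of_mem_maximalAtlas (IsManifold.chart_mem_maximalAtlas (pr x))).contMDiffAt
      (e.open_target.mem_nhds h1)
  have h3 : ContMDiffAt (𝓡 3) (𝓡 3) ∞ (fun y : E3 => g • y) x :=
    (contDiff_smul g).contMDiff.contMDiffAt
  have h4 := ContMDiffAt.comp (g := e.symm) (f := fun y : E3 => g • y) x h2 h3
  have h5 : (e.symm : E3 → NilM) ∘ (fun y : E3 => g • y) = pr := by
    funext y
    simp [he, atlas_symm (chart_mem_atlas E3 (pr x)), pr_smul]
  rwa [h5] at h4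

/-- chart expression of a smooth curve is smooth -/
lemma contDiffAt_chart {γ : ℝ → NilM} {J : Set ℝ} (hJ : IsOpen J)
    (hγ : ContMDiffOn 𝓘(ℝ, ℝ) (𝓡 3) ∞ γ J) {e : OpenPartialHomeomorph NilM E3}
    (he : e ∈ atlas E3 NilM) {t : ℝ} (ht : t ∈ J) (hte : γ t ∈ e.source) :
    ContDiffAt ℝ ∞ (fun s => e (γ s)) t := by
  have h1 : ContMDiffAt 𝓘(ℝ, ℝ) (𝓡 3) ∞ γ t := hγ.contMDiffAt (hJ.mem_nhds ht)
  have h2 : ContMDiffAt (𝓡 3) (𝓡 3) ∞ e (γ t) :=
    (contMDiffOn_of_mem_maximalAtlas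
      (IsManifold.subset_maximalAtlas he)).contMDiffAt (e.open_source.mem_nhds hte)
  exact (ContMDiffAt.comp t h2 h1).contDiffAt

lemma eventually_source {γ : ℝ → NilM} {J : Set ℝ} (hJ : IsOpen J)
    (hγ : ContMDiffOn 𝓘(ℝ, ℝ) (𝓡 3) ∞ γ J) (e : OpenPartialHomeomorph NilM E3)
    {t : ℝ} (ht : t ∈ J) (hte : γ t ∈ e.source) : ∀ᶠ s in 𝓝 t, s ∈ J ∧ γ s ∈ e.source := by
  have h1 : ContinuousAt γ t := (hγ.contMDiffAt (hJ.mem_nhds ht)).continuousAt
  exact (hJ.eventually_mem ht).and (h1.eventually_mem (e.open_source.mem_nhds hte))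

/-- velocity of a curve in terms of a chart expression -/
lemma velocity_eq {γ : ℝ → NilM} {J : Set ℝ} (hJ : IsOpen J)
    (hγ : ContMDiffOn 𝓘(ℝ, ℝ) (𝓡 3) ∞ γ J) {e : OpenPartialHomeomorph NilM E3}
    (he : e ∈ atlas E3 NilM) {t : ℝ} (ht : t ∈ J) (hte : γ t ∈ e.source) :
    pr (e (γ t)) = γ t ∧ velocity E3 γ t =
      (mfderiv (𝓡 3) (𝓡 3) pr (e (γ t)) (deriv (fun s => e (γ s)) t) : E3) := by
  have h0 : ∀ s, γ s ∈ e.source → pr (e (γ s)) = γ s := by
    intro s hs
    rw [← atlas_symm he]; exact e.left_inv hs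
  refine ⟨h0 t hte, ?_⟩
  have h1 : ∀ᶠ s in 𝓝 t, γ s = pr (e (γ s)) := by
    filter_upwards [eventually_source hJ hγ e ht hte] with s hs
    exact (h0 s hs.2).symm
  have h2 := (contDiffAt_chart hJ hγ he ht hte).differentiableAt (by simp)
  have h3 : HasMFDerivAt 𝓘(ℝ, ℝ) (𝓡 3) (fun s => e (γ s)) t
      (fderiv ℝ (fun s => e (γ s)) t) := h2.hasFDerivAt.hasMFDerivAt
  have h4 : HasMFDerivAt (𝓡 3) (𝓡 3) pr (e (γ t)) (mfderiv (𝓡 3) (𝓡 3) pr (e (γ t))) :=
    (pr_contMDiff.mdifferentiable (by simp) _).hasMFDerivAt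
  have h5 := HasMFDerivAt.comp t h4 h3
  have h6 := h5.congr_of_eventuallyEq (f₁ := γ) h1
  unfold velocity
  rw [h6.mfderiv]
  rfl

lemma hasDerivAt_coord {c : ℝ → E3} {t : ℝ} {v : E3} (h : HasDerivAt c v t) (i : Fin 3) :
    HasDerivAt (fun s => c s i) (v i) t := by
  have := (P i).hasFDerivAt.comp_hasDerivAt t h
  exact this

lemma hasDerivAt_chart {γ : ℝ → NilM} {J : Set ℝ} (hJ : IsOpen J)
    (hγ : ContMDiffOn 𝓘(ℝ, ℝ) (𝓡 3) ∞ γ J) {e : OpenPartialHomeomorph NilM E3}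
    (he : e ∈ atlas E3 NilM) {t : ℝ} (ht : t ∈ J) (hte : γ t ∈ e.source) :
    HasDerivAt (fun s => e (γ s)) (deriv (fun s => e (γ s)) t) t ∧
    HasDerivAt (deriv (fun s => e (γ s))) (deriv (deriv (fun s => e (γ s))) t) t := by
  have hc := contDiffAt_chart hJ hγ he ht hte
  have hc' : ContDiffAt ℝ ∞ (deriv (fun s => e (γ s))) t := hc.derivWithin le_rfl
  exact ⟨(hc.differentiableAt (by simp)).hasDerivAt, (hc'.differentiableAt (by simp)).hasDerivAt⟩

/-- facts on the functions `dx(γ')`, `dy(γ')` along a geodesic -/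
lemma geodesic_forms {γ : ℝ → NilM} {J : Set ℝ} (hJ : IsOpen J) (hγ : gN.IsGeodesicOn γ J)
    {t : ℝ} (ht : t ∈ J) :
    HasDerivAt (fun s => P 0 (velocity E3 γ s : E3)) 0 t ∧
    HasDerivAt (fun s => P 1 (velocity E3 γ s : E3)) ((P 0 (velocity E3 γ t : E3)) ^ 2) t := by
  obtain ⟨hs, heq⟩ := (isGeodesicOn_iff γ J).mp hγ
  set e := chartAt E3 (γ t) with he
  have hte : γ t ∈ e.source := mem_chart_source E3 (γ t)
  have hea : e ∈ atlas E3 NilM := chart_mem_atlas E3 (γ t)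
  obtain ⟨o0, o1, -⟩ := heq e hea t ht hte
  obtain ⟨-, hd⟩ := hasDerivAt_chart hJ hs hea ht hte
  have hv0 : ∀ s ∈ J, γ s ∈ e.source →
      P 0 (velocity E3 γ s : E3) = (deriv (fun s => e (γ s)) s) 0 := by
    intro s hsJ hse
    rw [(velocity_eq hJ hs hea hsJ hse).2]
    exact P0_mfderiv _ _
  have hv1 : ∀ s ∈ J, γ s ∈ e.source →
      P 1 (velocity E3 γ s : E3) = (deriv (fun s => e (γ s)) s) 1 := by
    intro s hsJ hse
    rw [(velocity_eq hJ hs hea hsJ hse).2]
    exact P1_mfderiv _ _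
  have hev := eventually_source hJ hs e ht hte
  constructor
  · have h1 := hasDerivAt_coord hd 0
    rw [o0] at h1
    refine h1.congr_of_eventuallyEq ?_
    filter_upwards [hev] with s hs'
    exact hv0 s hs'.1 hs'.2
  · have h1 := hasDerivAt_coord hd 1
    rw [o1, ← hv0 t ht hte] at h1
    refine h1.congr_of_eventuallyEq ?_
    filter_upwards [hev] with s hs'
    exact hv1 s hs'.1 hs'.2

/-- `dy(γ')` is affine along every geodesic defined on the whole line -/
lemma affine_of_geodesic {γ : ℝ → NilM} (hγ : gN.IsGeodesicOn γ Set.univ) (t : ℝ) :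
    etaN.val (γ t) (velocity E3 γ t) =
      (P 0 (velocity E3 γ 0 : E3)) ^ 2 * t + P 1 (velocity E3 γ 0 : E3) := by
  have h0 : ∀ t, HasDerivAt (fun s => P 0 (velocity E3 γ s : E3)) 0 t :=
    fun t => (geodesic_forms isOpen_univ hγ (Set.mem_univ t)).1
  have h1 : ∀ t, HasDerivAt (fun s => P 1 (velocity E3 γ s : E3)) ((P 0 (velocity E3 γ t : E3)) ^ 2) t :=
    fun t => (geodesic_forms isOpen_univ hγ (Set.mem_univ t)).2
  have hc : ∀ t, P 0 (velocity E3 γ t : E3) = P 0 (velocity E3 γ 0 : E3) := fun t =>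
    is_const_of_deriv_eq_zero (fun t => (h0 t).differentiableAt) (fun t => (h0 t).deriv) t 0
  set a := P 0 (velocity E3 γ 0 : E3)
  have h2 : ∀ t, HasDerivAt (fun s => P 1 (velocity E3 γ s : E3) - a ^ 2 * s) 0 t := by
    intro t
    have := (h1 t).sub ((hasDerivAt_id t).const_mul (a ^ 2))
    rw [hc t, mul_one, sub_self] at this
    exact this
  have h3 := is_const_of_deriv_eq_zero (fun t => (h2 t).differentiableAt)
    (fun t => (h2 t).deriv) t 0
  show P 1 (velocity E3 γ t : E3) = _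
  simp at h3
  simp
  linarith

/-! ### The global geodesics -/

/-- the solution of the geodesic equation with initial data `q, v` at time `t₀` -/
noncomputable def sol (q v : E3) (t₀ t : ℝ) : E3 :=
  WithLp.toLp 2 ![q 0 + v 0 * (t - t₀),
    q 1 + v 1 * (t - t₀) + (v 0) ^ 2 * (t - t₀) ^ 2 / 2,
    q 2 + v 2 * (t - t₀) + (v 0) ^ 2 * (q 0 * (t - t₀) ^ 2 / 2 + v 0 * (t - t₀) ^ 3 / 6)]

noncomputable def sol' (q v : E3) (t₀ t : ℝ) : E3 :=
  WithLp.toLp 2 ![v 0, v 1 + (v 0) ^ 2 * (t - t₀),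
    v 2 + (v 0) ^ 2 * (q 0 * (t - t₀) + v 0 * (t - t₀) ^ 2 / 2)]

noncomputable def sol'' (q v : E3) (t₀ t : ℝ) : E3 :=
  WithLp.toLp 2 ![0, (v 0) ^ 2, (v 0) ^ 2 * (q 0 + v 0 * (t - t₀))]

lemma hasDerivAt_of_coord {c : ℝ → E3} {v : E3} {t : ℝ}
    (h0 : HasDerivAt (fun s => c s 0) (v 0) t) (h1 : HasDerivAt (fun s => c s 1) (v 1) t)
    (h2 : HasDerivAt (fun s => c s 2) (v 2) t) : HasDerivAt c v t := by
  rw [hasDerivAt_iff_hasFDerivAt, ← hasFDerivWithinAt_univ, hasFDerivWithinAt_euclidean]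
  have key : ∀ i, HasDerivAt (fun s => c s i) (v i) t := by
    intro i
    fin_cases i
    · exact h0
    · exact h1
    · exact h2
  intro i
  refine (key i).hasFDerivAt.hasFDerivWithinAt.congr_fderiv ?_
  ext
  simp

lemma hasDerivAt_sol (q v : E3) (t₀ t : ℝ) : HasDerivAt (sol q v t₀) (sol' q v t₀ t) t := by
  have hb : HasDerivAt (fun s : ℝ => s - t₀) 1 t := (hasDerivAt_id t).sub_const t₀
  refine hasDerivAt_of_coord ?_ ?_ ?_
  · refine ((hb.const_mul (v 0)).const_add (q 0)).congr_deriv ?_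
    simp [sol']
  · refine (((hb.const_mul (v 1)).const_add (q 1)).add
      (((hb.pow 2).const_mul ((v 0) ^ 2)).div_const 2)).congr_deriv ?_
    simp [sol']
    ring
  · refine (((hb.const_mul (v 2)).const_add (q 2)).add
      (((((hb.pow 2).const_mul (q 0)).div_const 2).add
        (((hb.pow 3).const_mul (v 0)).div_const 6)).const_mul ((v 0) ^ 2))).congr_deriv ?_
    simp [sol']
    left
    ring

lemma hasDerivAt_sol' (q v : E3) (t₀ t : ℝ) :
    HasDerivAt (sol' q v t₀) (sol'' q v t₀ t) t := by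
  have hb : HasDerivAt (fun s : ℝ => s - t₀) 1 t := (hasDerivAt_id t).sub_const t₀
  refine hasDerivAt_of_coord ?_ ?_ ?_
  · exact hasDerivAt_const _ _
  · refine ((hb.const_mul ((v 0) ^ 2)).const_add (v 1)).congr_deriv ?_
    simp [sol'']
  · refine (((((hb.const_mul (q 0))).add
        (((hb.pow 2).const_mul (v 0)).div_const 2)).const_mul ((v 0) ^ 2)).const_add
        (v 2)).congr_deriv ?_
    simp [sol'']
    left
    ring

lemma deriv_sol (q v : E3) (t₀ : ℝ) : deriv (sol q v t₀) = sol' q v t₀ :=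
  funext fun t => (hasDerivAt_sol q v t₀ t).deriv

lemma deriv_sol' (q v : E3) (t₀ : ℝ) : deriv (sol' q v t₀) = sol'' q v t₀ :=
  funext fun t => (hasDerivAt_sol' q v t₀ t).deriv

lemma contDiff_sol (q v : E3) (t₀ : ℝ) : ContDiff ℝ ∞ (sol q v t₀) := by
  rw [contDiff_euclidean]
  intro i
  fin_cases i
  · show ContDiff ℝ ∞ (fun t => q 0 + v 0 * (t - t₀)); fun_prop
  · show ContDiff ℝ ∞ (fun t => q 1 + v 1 * (t - t₀) + (v 0) ^ 2 * (t - t₀) ^ 2 / 2); fun_prop
  · show ContDiff ℝ ∞ (fun t => q 2 + v 2 * (t - t₀) + (v 0) ^ 2 *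
      (q 0 * (t - t₀) ^ 2 / 2 + v 0 * (t - t₀) ^ 3 / 6)); fun_prop

lemma sol_self (q v : E3) (t₀ : ℝ) : sol q v t₀ t₀ = q := by
  apply E3.ext' <;> simp [sol]

lemma sol'_self (q v : E3) (t₀ : ℝ) : sol' q v t₀ t₀ = v := by
  apply E3.ext' <;> simp [sol']

/-- the projection of a global solution is a geodesic -/
lemma isGeodesicOn_sol (q v : E3) (t₀ : ℝ) :
    gN.IsGeodesicOn (fun t => pr (sol q v t₀ t)) Set.univ := by
  rw [isGeodesicOn_iff]
  refine ⟨(pr_contMDiff.comp (contDiff_sol q v t₀).contMDiff).contMDiffOn, ?_⟩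
  intro e he t _ hte
  obtain ⟨g, hg⟩ := exists_smul_of_mem_source he hte
  have hev : (fun s => e (pr (sol q v t₀ s))) =ᶠ[𝓝 t] fun s => g • sol q v t₀ s := by
    have h1 : ContinuousAt (sol q v t₀) t := (hasDerivAt_sol q v t₀ t).continuousAt
    exact (h1.eventually hg).mono fun s hs => hs.2
  have hd1 : ∀ s, HasDerivAt (fun s => g • sol q v t₀ s) (L g (sol' q v t₀ s)) s := fun s =>
    (hasFDerivAt_smul g _).comp_hasDerivAt s (hasDerivAt_sol q v t₀ s)
  have hd1' : deriv (fun s => g • sol q v t₀ s) = fun s => L g (sol' q v t₀ s) :=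
    funext fun s => (hd1 s).deriv
  have hd2 : deriv (fun s => L g (sol' q v t₀ s)) t = L g (sol'' q v t₀ t) :=
    ((L g).hasFDerivAt.comp_hasDerivAt t (hasDerivAt_sol' q v t₀ t)).deriv
  unfold SolODE
  rw [hev.deriv.deriv_eq, hev.deriv_eq, hev.self_of_nhds, hd1', hd2]
  simp [sol, sol', sol'']
  ring

/-! ### Uniqueness -/

lemma eqOn_of_solODE {c₁ c₂ : ℝ → E3} {U : Set ℝ} (hU : IsOpen U) (hU' : IsPreconnected U)
    (h₁ : ∀ t ∈ U, HasDerivAt c₁ (deriv c₁ t) t ∧ HasDerivAt (deriv c₁) (deriv (deriv c₁) t) t)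
    (h₂ : ∀ t ∈ U, HasDerivAt c₂ (deriv c₂ t) t ∧ HasDerivAt (deriv c₂) (deriv (deriv c₂) t) t)
    (s₁ : ∀ t ∈ U, SolODE c₁ t) (s₂ : ∀ t ∈ U, SolODE c₂ t) {t₀ : ℝ} (ht₀ : t₀ ∈ U)
    (e : c₁ t₀ = c₂ t₀) (e' : deriv c₁ t₀ = deriv c₂ t₀) : Set.EqOn c₁ c₂ U := by
  have key : ∀ (f g f' g' : ℝ → ℝ), (∀ t ∈ U, HasDerivAt f (f' t) t) →
      (∀ t ∈ U, HasDerivAt g (g' t) t) → (∀ t ∈ U, f' t = g' t) → f t₀ = g t₀ →
      Set.EqOn f g U := by
    intro f g f' g' hf hg hfg h0
    refine hU.eqOn_of_deriv_eq hU' (fun t ht => (hf t ht).differentiableAt.differentiableWithinAt)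
      (fun t ht => (hg t ht).differentiableAt.differentiableWithinAt) ?_ ht₀ h0
    intro t ht
    rw [(hf t ht).deriv, (hg t ht).deriv, hfg t ht]
  have a1 := key (fun t => deriv c₁ t 0) (fun t => deriv c₂ t 0) _ _
    (fun t ht => hasDerivAt_coord (h₁ t ht).2 0) (fun t ht => hasDerivAt_coord (h₂ t ht).2 0)
    (fun t ht => by rw [(s₁ t ht).1, (s₂ t ht).1]) (by rw [e'])
  have a2 := key (fun t => c₁ t 0) (fun t => c₂ t 0) _ _
    (fun t ht => hasDerivAt_coord (h₁ t ht).1 0) (fun t ht => hasDerivAt_coord (h₂ t ht).1 0)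
    a1 (by rw [e])
  have a3 := key (fun t => deriv c₁ t 1) (fun t => deriv c₂ t 1) _ _
    (fun t ht => hasDerivAt_coord (h₁ t ht).2 1) (fun t ht => hasDerivAt_coord (h₂ t ht).2 1)
    (fun t ht => by
      have := a1 ht
      simp only at this
      rw [(s₁ t ht).2.1, (s₂ t ht).2.1, this]) (by rw [e'])
  have a4 := key (fun t => c₁ t 1) (fun t => c₂ t 1) _ _
    (fun t ht => hasDerivAt_coord (h₁ t ht).1 1) (fun t ht => hasDerivAt_coord (h₂ t ht).1 1)
    a3 (by rw [e])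
  have a5 := key (fun t => deriv c₁ t 2) (fun t => deriv c₂ t 2) _ _
    (fun t ht => hasDerivAt_coord (h₁ t ht).2 2) (fun t ht => hasDerivAt_coord (h₂ t ht).2 2)
    (fun t ht => by
      have h1 := a1 ht
      have h2 := a2 ht
      simp only at h1 h2
      rw [(s₁ t ht).2.2, (s₂ t ht).2.2, h1, h2]) (by rw [e'])
  have a6 := key (fun t => c₁ t 2) (fun t => c₂ t 2) _ _
    (fun t ht => hasDerivAt_coord (h₁ t ht).1 2) (fun t ht => hasDerivAt_coord (h₂ t ht).1 2)
    a5 (by rw [e])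
  intro t ht
  exact E3.ext' (a2 ht) (a4 ht) (a6 ht)

/-- two geodesics agreeing near a point of an interval agree on the interval -/
lemma geodesic_unique {γ Γ : ℝ → NilM} {J : Set ℝ} (hJ : IsOpen J) (hJ' : IsPreconnected J)
    (hγ : gN.IsGeodesicOn γ J) (hΓ : gN.IsGeodesicOn Γ J) {t₀ : ℝ} (ht₀ : t₀ ∈ J)
    (h : γ =ᶠ[𝓝 t₀] Γ) : Set.EqOn γ Γ J := by
  obtain ⟨hs, heq⟩ := (isGeodesicOn_iff γ J).mp hγ
  obtain ⟨Hs, Heq⟩ := (isGeodesicOn_iff Γ J).mp hΓ
  let u : Set ℝ := {t | γ =ᶠ[𝓝 t] Γ}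
  have hu : IsOpen u := isOpen_iff_mem_nhds.mpr fun t ht => by
    exact (eventually_eventually_nhds.mpr ht)
  have hsub : J ⊆ u := by
    refine hJ'.subset_of_closure_inter_subset hu ⟨t₀, ht₀, h⟩ ?_
    rintro t ⟨htc, htJ⟩
    have hγt : ContinuousAt γ t := (hs.contMDiffAt (hJ.mem_nhds htJ)).continuousAt
    have hΓt : ContinuousAt Γ t := (Hs.contMDiffAt (hJ.mem_nhds htJ)).continuousAt
    have hfr : ∃ᶠ s in 𝓝 t, s ∈ u := mem_closure_iff_frequently.mp htc
    have hval : γ t = Γ t := by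
      by_contra hne
      obtain ⟨A, B, hA, hB, hA1, hB1, hAB⟩ := t2_separation hne
      have h1 := hγt.eventually_mem (hA.mem_nhds hA1)
      have h2 := hΓt.eventually_mem (hB.mem_nhds hB1)
      obtain ⟨s, hsu, h1, h2⟩ := (hfr.and_eventually (h1.and h2)).exists
      have hsu2 : ∀ᶠ r in 𝓝 s, γ r = Γ r := hsu
      have : γ s = Γ s := hsu2.self_of_nhds
      rw [← this] at h2
      exact Set.disjoint_left.mp hAB h1 h2
    set e := chartAt E3 (γ t) with he
    have hte : γ t ∈ e.source := mem_chart_source E3 (γ t)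
    have hte' : Γ t ∈ e.source := hval ▸ hte
    have hea : e ∈ atlas E3 NilM := chart_mem_atlas E3 (γ t)
    have hev := (eventually_source hJ hs e htJ hte).and (eventually_source hJ Hs e htJ hte')
    obtain ⟨ε, hε, hball⟩ := Metric.eventually_nhds_iff_ball.mp hev
    have hUpre : IsPreconnected (Metric.ball t ε) := (convex_ball t ε).isPreconnected
    obtain ⟨s, hsu, hsb⟩ := (hfr.and_eventually (Metric.ball_mem_nhds t hε)).exists
    have hEq : Set.EqOn (fun s => e (γ s)) (fun s => e (Γ s)) (Metric.ball t ε) := by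
      have hsu' : (fun s => e (γ s)) =ᶠ[𝓝 s] (fun s => e (Γ s)) := by
        have : γ =ᶠ[𝓝 s] Γ := hsu
        filter_upwards [this] with r hr
        rw [hr]
      exact eqOn_of_solODE Metric.isOpen_ball hUpre
        (fun r hr => hasDerivAt_chart hJ hs hea (hball r hr).1.1 (hball r hr).1.2)
        (fun r hr => hasDerivAt_chart hJ Hs hea (hball r hr).2.1 (hball r hr).2.2)
        (fun r hr => heq e hea r (hball r hr).1.1 (hball r hr).1.2)
        (fun r hr => Heq e hea r (hball r hr).2.1 (hball r hr).2.2)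
        hsb hsu'.self_of_nhds hsu'.deriv_eq
    show γ =ᶠ[𝓝 t] Γ
    filter_upwards [Metric.ball_mem_nhds t hε] with r hr
    exact e.injOn (hball r hr).1.2 (hball r hr).2.2 (hEq hr)
  intro t ht
  have h2 : ∀ᶠ r in 𝓝 t, γ r = Γ r := hsub ht
  exact h2.self_of_nhds

/-- local uniqueness of geodesics -/
lemma geodesic_local_unique {γ Γ : ℝ → NilM} {J : Set ℝ} (hJ : IsOpen J)
    (hγ : gN.IsGeodesicOn γ J) (hΓ : gN.IsGeodesicOn Γ J) {t : ℝ} (ht : t ∈ J)
    (h : γ t = Γ t)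
    (h' : deriv (fun s => chartAt E3 (γ t) (γ s)) t = deriv (fun s => chartAt E3 (γ t) (Γ s)) t) :
    γ =ᶠ[𝓝 t] Γ := by
  obtain ⟨hs, heq⟩ := (isGeodesicOn_iff γ J).mp hγ
  obtain ⟨Hs, Heq⟩ := (isGeodesicOn_iff Γ J).mp hΓ
  set e := chartAt E3 (γ t) with he
  have hte : γ t ∈ e.source := mem_chart_source E3 (γ t)
  have hte' : Γ t ∈ e.source := h ▸ hte
  have hea : e ∈ atlas E3 NilM := chart_mem_atlas E3 (γ t)
  have hev := (eventually_source hJ hs e ht hte).and (eventually_source hJ Hs e ht hte')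
  obtain ⟨ε, hε, hball⟩ := Metric.eventually_nhds_iff_ball.mp hev
  have hUpre : IsPreconnected (Metric.ball t ε) := (convex_ball t ε).isPreconnected
  have hEq : Set.EqOn (fun s => e (γ s)) (fun s => e (Γ s)) (Metric.ball t ε) :=
    eqOn_of_solODE Metric.isOpen_ball hUpre
      (fun r hr => hasDerivAt_chart hJ hs hea (hball r hr).1.1 (hball r hr).1.2)
      (fun r hr => hasDerivAt_chart hJ Hs hea (hball r hr).2.1 (hball r hr).2.2)
      (fun r hr => heq e hea r (hball r hr).1.1 (hball r hr).1.2)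
      (fun r hr => Heq e hea r (hball r hr).2.1 (hball r hr).2.2)
      (Metric.mem_ball_self hε) (by simp only [h]) h'
  filter_upwards [Metric.ball_mem_nhds t hε] with r hr
  exact e.injOn (hball r hr).1.2 (hball r hr).2.2 (hEq hr)

lemma isGeodesicOn_mono {γ : ℝ → NilM} {J J' : Set ℝ} (h : J' ⊆ J)
    (hγ : gN.IsGeodesicOn γ J) : gN.IsGeodesicOn γ J' :=
  ⟨hγ.1.mono h, fun e he t ht => hγ.2 e he t (h ht)⟩

lemma gN_complete : gN.IsComplete := by
  intro γ J hJ hJ' hγ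
  rcases J.eq_empty_or_nonempty with rfl | ⟨t₀, ht₀⟩
  · exact ⟨_, isGeodesicOn_sol 0 0 0, fun t ht => absurd ht (Set.notMem_empty t)⟩
  set e := chartAt E3 (γ t₀) with he
  have hea : e ∈ atlas E3 NilM := chart_mem_atlas E3 (γ t₀)
  have hte : γ t₀ ∈ e.source := mem_chart_source E3 (γ t₀)
  set q := e (γ t₀) with hq
  set v := deriv (fun s => e (γ s)) t₀ with hv
  have hsol := isGeodesicOn_sol q v t₀
  refine ⟨_, hsol, ?_⟩
  have hqt : sol q v t₀ t₀ ∈ e.target := by
    rw [sol_self]; exact e.map_source hte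
  have hval : γ t₀ = pr (sol q v t₀ t₀) := by
    rw [sol_self, hq, ← atlas_symm hea]
    exact (e.left_inv hte).symm
  have hev : (fun s => e (pr (sol q v t₀ s))) =ᶠ[𝓝 t₀] sol q v t₀ := by
    have h1 : ContinuousAt (sol q v t₀) t₀ := (hasDerivAt_sol q v t₀ t₀).continuousAt
    filter_upwards [h1.eventually_mem (e.open_target.mem_nhds hqt)] with s hs
    have := e.right_inv hs
    rwa [atlas_symm hea] at this
  have hloc : γ =ᶠ[𝓝 t₀] fun t => pr (sol q v t₀ t) := by
    refine geodesic_local_unique hJ hγ (isGeodesicOn_mono (Set.subset_univ J) hsol) ht₀ hval ?_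
    rw [← he, hev.deriv_eq, deriv_sol, sol'_self]
  exact (geodesic_unique hJ hJ'.isPreconnected hγ
    (isGeodesicOn_mono (Set.subset_univ J) hsol) ht₀ hloc).symm

lemma gN_indefinite : gN.IsIndefinite := by
  intro p
  refine ⟨⟨(EuclideanSpace.single 1 1 : E3), ?_⟩,
    ⟨(EuclideanSpace.single 0 1 - EuclideanSpace.single 2 1 : E3), ?_⟩⟩
  · show 0 < Gm (lift p) (EuclideanSpace.single 1 1) (EuclideanSpace.single 1 1)
    rw [Gm_apply]; simp
  · show Gm (lift p) (EuclideanSpace.single 0 1 - EuclideanSpace.single 2 1)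
      (EuclideanSpace.single 0 1 - EuclideanSpace.single 2 1) < 0
    rw [Gm_apply]; simp

/-- initial data of the light-like geodesic `t ↦ (t, t²/2, t³/6)` -/
noncomputable def curve (t : ℝ) : NilM := pr (sol 0 (EuclideanSpace.single 0 1) 0 t)

lemma velocity_pr_sol (q v : E3) (t₀ t : ℝ) :
    velocity E3 (fun t => pr (sol q v t₀ t)) t =
      (mfderiv (𝓡 3) (𝓡 3) pr (sol q v t₀ t) (sol' q v t₀ t) : E3) := by
  have h3 : HasMFDerivAt 𝓘(ℝ, ℝ) (𝓡 3) (sol q v t₀) t
      (fderiv ℝ (sol q v t₀) t) :=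
    (hasDerivAt_sol q v t₀ t).differentiableAt.hasFDerivAt.hasMFDerivAt
  have h4 : HasMFDerivAt (𝓡 3) (𝓡 3) pr (sol q v t₀ t) (mfderiv (𝓡 3) (𝓡 3) pr (sol q v t₀ t)) :=
    (pr_contMDiff.mdifferentiable (by simp) _).hasMFDerivAt
  have h5 := HasMFDerivAt.comp t h4 h3
  have h7 : fderiv ℝ (sol q v t₀) t 1 = sol' q v t₀ t := by
    rw [fderiv_apply_one_eq_deriv, deriv_sol]
  unfold velocity
  have h8 := h5.mfderiv
  rw [show (fun t => pr (sol q v t₀ t)) = pr ∘ sol q v t₀ from rfl, h8]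
  rw [← h7]
  rfl

lemma curve_lightlike : gN.IsLightlikeGeodesic curve := by
  refine ⟨isGeodesicOn_sol _ _ _, ?_, ?_⟩
  · by_contra hcon
    push Not at hcon
    have h1 : curve = fun _ => curve 0 := funext fun s => hcon s 0
    have h2 : velocity E3 curve 0 = (0 : E3) := by
      rw [h1]
      unfold velocity
      rw [mfderiv_const]
      rfl
    have h3 := velocity_pr_sol 0 (EuclideanSpace.single 0 1) 0 0
    have h4 : P 0 (velocity E3 curve 0 : E3) = 1 := by
      refine (congrArg (fun v : E3 => P 0 v) h3).trans ?_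
      refine (P0_mfderiv _ _).trans ?_
      rw [sol'_self]
      simp
    rw [h2] at h4
    simp at h4
  · intro t
    have h3 := velocity_pr_sol 0 (EuclideanSpace.single 0 1) 0 t
    have h5 : gN.val (curve t) (velocity E3 curve t) (velocity E3 curve t) =
        Gm (sol 0 (EuclideanSpace.single 0 1) 0 t) (sol' 0 (EuclideanSpace.single 0 1) 0 t)
          (sol' 0 (EuclideanSpace.single 0 1) 0 t) := by
      rw [← bilin_mfderiv]
      exact congrArg (fun v : E3 => Gm (lift (curve t)) v v) h3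
    rw [h5, Gm_apply]
    simp [sol, sol']
    ring

/-- **Answer to Q1 (yes).** There are a closed smooth manifold `M` (here compact, Hausdorff,
second countable, connected, boundaryless and of dimension 3), a geodesically complete smooth
semi-Riemannian metric `g` of indefinite signature on `M` and a smooth 1-form `η` on `M`, not
identically zero, such that along every light-like geodesic `γ : ℝ → M` the function
`t ↦ η(γ'(t))` is of the form `C₁ t + C₂`, and `C₁ ≠ 0` for at least one light-like geodesic. -/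
theorem result : HasLinearGrowthExample (EuclideanSpace ℝ (Fin 3)) := by
  refine ⟨NilM, inferInstance, inferInstance, inferInstance, gN, etaN, inferInstance,
    inferInstance, inferInstance, inferInstance, gN_indefinite, gN_complete, ⟨pr 0, ?_⟩, ?_, ?_⟩
  · intro h
    have h1 : P 1 (EuclideanSpace.single 1 1 : E3) = 0 :=
      congrArg (fun T : E3 →L[ℝ] ℝ => T (EuclideanSpace.single 1 1)) h
    simp at h1
  · intro γ hγ
    exact ⟨_, _, affine_of_geodesic hγ.1⟩
  · refine ⟨curve, curve_lightlike, _, _, ?_, affine_of_geodesic curve_lightlike.1⟩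
    have h3 := velocity_pr_sol 0 (EuclideanSpace.single 0 1) 0 0
    have h4 : P 0 (velocity E3 curve 0 : E3) = 1 := by
      refine (congrArg (fun v : E3 => P 0 v) h3).trans ?_
      refine (P0_mfderiv _ _).trans ?_
      rw [sol'_self]
      simp
    rw [h4]
    norm_num

end Pool.Agent.Results.MP_64c48d_gt.LinearGrowth
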